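import Pool.Agent.Run7.h532.KS.Base
import Pool.Agent.H816_Nef.J5

/-!
# The Laplacian of `log (Q + a P) - k log (Im z)` along holomorphic discs
-/

set_option autoImplicit false

open Set Topology Filter Metric
open scoped ContDiff ComplexConjugate

namespace Pool.Agent.Run7.h390.KS

open Pool.Agent.Run7.h532.KS Pool.Agent.H816_Nef
open Pool.Agent.PNB (laplaceAtZero)

/-- second derivative of the logarithm of a quadratic polynomial -/
theorem d2log {S0 S1 S2 : ℝ} (h : 0 < S0) :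
    (∀ᶠ s in 𝓝 (0 : ℝ), HasDerivAt (fun s : ℝ => Real.log (S0 + S1 * s + S2 * s ^ 2))
      ((S1 + 2 * S2 * s) / (S0 + S1 * s + S2 * s ^ 2)) s) ∧
    HasDerivAt (fun s : ℝ => (S1 + 2 * S2 * s) / (S0 + S1 * s + S2 * s ^ 2))
      ((2 * S2 * S0 - S1 ^ 2) / S0 ^ 2) 0 := by
  have hd : ∀ s : ℝ, HasDerivAt (fun s : ℝ => S0 + S1 * s + S2 * s ^ 2) (S1 + 2 * S2 * s) s := by
    intro s
    have h1 : HasDerivAt (fun s : ℝ => S0 + S1 * s) S1 s := by
      simpa using ((hasDerivAt_id s).const_mul S1).const_add S0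
    have h2 : HasDerivAt (fun s : ℝ => S2 * s ^ 2) (2 * S2 * s) s := by
      have := (hasDerivAt_pow 2 s).const_mul S2
      have e : S2 * (((2 : ℕ) : ℝ) * s ^ (2 - 1)) = 2 * S2 * s := by
        push_cast
        ring
      rw [e] at this
      exact this
    exact h1.add h2
  constructor
  · have hc : ContinuousAt (fun s : ℝ => S0 + S1 * s + S2 * s ^ 2) 0 := by fun_prop
    have : ∀ᶠ s in 𝓝 (0 : ℝ), S0 + S1 * s + S2 * s ^ 2 ≠ 0 := by
      apply hc.eventually_ne
      simpa using h.ne'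
    filter_upwards [this] with s hs
    exact (hd s).log hs
  · have h1 : HasDerivAt (fun s : ℝ => S1 + 2 * S2 * s) (2 * S2) 0 := by
      simpa using ((hasDerivAt_id (0 : ℝ)).const_mul (2 * S2)).const_add S1
    have h2 := h1.fun_div (hd 0) (by simpa using h.ne')
    have e : (2 * S2 * (S0 + S1 * 0 + S2 * 0 ^ 2) - (S1 + 2 * S2 * 0) * (S1 + 2 * S2 * 0)) /
        (S0 + S1 * 0 + S2 * 0 ^ 2) ^ 2 = (2 * S2 * S0 - S1 ^ 2) / S0 ^ 2 := by
      congr 1 <;> ring
    rw [e] at h2
    exact h2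

theorem nsq (A B : ℂ) (s : ℝ) : Complex.normSq (A + (s : ℂ) * B) =
    Complex.normSq A + 2 * (A.re * B.re + A.im * B.im) * s + Complex.normSq B * s ^ 2 := by
  simp only [Complex.normSq_apply, Complex.add_re, Complex.add_im, Complex.mul_re, Complex.mul_im,
    Complex.ofReal_re, Complex.ofReal_im]
  ring

/-- second derivative along a real line -/
theorem line {a : ℝ} (k : ℝ) (ha : 0 < a) (p v : E) (hp : 0 < p.1.im) :
    iteratedDeriv 2 (fun s : ℝ => Psi a k (p + (s : ℂ) • v)) 0 =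
      (2 * (Complex.normSq (v.2 - conj v.1) + a * Complex.normSq (v.2 - v.1)) *
        (QQ p + a * PP p) -
        (2 * ((p.2 - conj p.1).re * (v.2 - conj v.1).re + (p.2 - conj p.1).im * (v.2 - conj v.1).im) +
        a * (2 * ((p.2 - p.1).re * (v.2 - v.1).re + (p.2 - p.1).im * (v.2 - v.1).im))) ^ 2) /
        (QQ p + a * PP p) ^ 2 + k * v.1.im ^ 2 / p.1.im ^ 2 := by
  have hQ : 0 < QQ p + a * PP p := by
    have h1 : 0 ≤ PP p := Complex.normSq_nonneg _
    have h2 : 0 ≤ QQ p := Complex.normSq_nonneg _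
    rcases h1.lt_or_eq with h | h
    · positivity
    · have h3 : p.2 = p.1 := by
        have := Complex.normSq_eq_zero.1 h.symm
        exact sub_eq_zero.1 this
      have h4 : 0 < QQ p := by
        unfold QQ
        rw [Complex.normSq_pos, h3]
        intro h5
        have h6 := congrArg Complex.im h5
        simp at h6
        linarith
      positivity
  set A := p.2 - conj p.1 with hA
  set B := v.2 - conj v.1 with hB
  set C := p.2 - p.1 with hC
  set D := v.2 - v.1 with hD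
  set S0 := QQ p + a * PP p with hS0
  set S1 := 2 * (A.re * B.re + A.im * B.im) + a * (2 * (C.re * D.re + C.im * D.im)) with hS1
  set S2 := Complex.normSq B + a * Complex.normSq D with hS2
  have e1 : (fun s : ℝ => Psi a k (p + (s : ℂ) • v)) =
      fun s : ℝ => Real.log (S0 + S1 * s + S2 * s ^ 2) - k * Real.log (p.1.im + v.1.im * s +
        0 * s ^ 2) := by
    funext s
    unfold Psi
    have h1 : QQ (p + (s : ℂ) • v) = Complex.normSq (A + (s : ℂ) * B) := by
      unfold QQ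
      congr 1
      simp only [Prod.fst_add, Prod.snd_add, Prod.smul_fst, Prod.smul_snd, smul_eq_mul, map_add,
        map_mul, Complex.conj_ofReal, hA, hB]
      ring
    have h2 : PP (p + (s : ℂ) • v) = Complex.normSq (C + (s : ℂ) * D) := by
      unfold PP
      congr 1
      simp only [Prod.fst_add, Prod.snd_add, Prod.smul_fst, Prod.smul_snd, smul_eq_mul, hC, hD]
      ring
    have h3 : (p + (s : ℂ) • v).1.im = p.1.im + v.1.im * s + 0 * s ^ 2 := by
      simp [mul_comm]
    rw [h1, h2, h3, nsq, nsq]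
    congr 2
    rw [hS0, hS1, hS2]
    unfold QQ PP
    rw [← hA, ← hC]
    ring
  obtain ⟨f1, f2⟩ := d2log (S1 := S1) (S2 := S2) hQ
  obtain ⟨g1, g2⟩ := d2log (S1 := v.1.im) (S2 := 0) hp
  rw [e1, iteratedDeriv_succ, iteratedDeriv_one]
  have h3 : deriv (fun s : ℝ => Real.log (S0 + S1 * s + S2 * s ^ 2) -
      k * Real.log (p.1.im + v.1.im * s + 0 * s ^ 2)) =ᶠ[𝓝 0]
      fun s => (S1 + 2 * S2 * s) / (S0 + S1 * s + S2 * s ^ 2) -
        k * ((v.1.im + 2 * 0 * s) / (p.1.im + v.1.im * s + 0 * s ^ 2)) := by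
    filter_upwards [f1, g1] with s hs1 hs2
    exact (hs1.sub (hs2.const_mul k)).deriv
  have h4 := (f2.fun_sub (g2.const_mul k)).deriv
  rw [h3.deriv_eq, h4]
  ring

theorem psi_cd {a : ℝ} (k : ℝ) (ha : 0 < a) (p : E) (hp : 0 < p.1.im) :
    ContDiffAt ℝ 2 (Psi a k) p := by
  have hQ : 0 < QQ p + a * PP p := by
    have h1 : 0 ≤ PP p := Complex.normSq_nonneg _
    have h2 : 0 ≤ QQ p := Complex.normSq_nonneg _
    rcases h1.lt_or_eq with h | h
    · positivity
    · have h3 : p.2 = p.1 := by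
        have := Complex.normSq_eq_zero.1 h.symm
        exact sub_eq_zero.1 this
      have h4 : 0 < QQ p := by
        unfold QQ
        rw [Complex.normSq_pos, h3]
        intro h5
        have h6 := congrArg Complex.im h5
        simp at h6
        linarith
      positivity
  have him : ContDiff ℝ 2 (fun p : E => p.1.im) :=
    Complex.imCLM.contDiff.comp contDiff_fst
  have hre : ContDiff ℝ 2 (fun p : E => p.1.re) :=
    Complex.reCLM.contDiff.comp contDiff_fst
  have him2 : ContDiff ℝ 2 (fun p : E => p.2.im) :=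
    Complex.imCLM.contDiff.comp contDiff_snd
  have hre2 : ContDiff ℝ 2 (fun p : E => p.2.re) :=
    Complex.reCLM.contDiff.comp contDiff_snd
  have hq : ContDiff ℝ 2 (fun p : E => QQ p + a * PP p) := by
    unfold QQ PP
    simp only [Complex.normSq_apply, Complex.sub_re, Complex.sub_im, Complex.conj_re,
      Complex.conj_im]
    fun_prop
  unfold Psi
  exact (hq.contDiffAt.log hQ.ne').sub (contDiffAt_const.mul (him.contDiffAt.log hp.ne'))

theorem t_LEVI : S_LEVI := by
  intro a k r z w ha hr hz hw him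
  have hz0 : AnalyticAt ℂ z 0 := (hz.analyticOnNhd isOpen_ball) 0 (mem_ball_self hr)
  have hw0 : AnalyticAt ℂ w 0 := (hw.analyticOnNhd isOpen_ball) 0 (mem_ball_self hr)
  have hp : 0 < (z 0).im := him 0 (mem_ball_self hr)
  have hcd := psi_cd k ha (z 0, w 0) hp
  have hf : AnalyticAt ℂ (fun ζ => (z ζ, w ζ)) 0 := hz0.prod hw0
  have hfR : ContDiffAt ℝ 2 (fun ζ => (z ζ, w ζ)) 0 := by
    have h1 : ContDiffAt ℂ 2 (fun ζ => (z ζ, w ζ)) 0 := hf.contDiffAt
    exact h1.restrict_scalars ℝ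
  have hd : deriv (fun ζ => (z ζ, w ζ)) 0 = (deriv z 0, deriv w 0) :=
    (hz0.differentiableAt.hasDerivAt.prodMk hw0.differentiableAt.hasDerivAt).deriv
  have hcf : ContDiffAt ℝ 2 (fun ζ => Psi a k (z ζ, w ζ)) 0 :=
    ContDiffAt.comp (g := Psi a k) (0 : ℂ) hcd hfR
  rw [laplaceAtZero_eq (u := fun ζ => Psi a k (z ζ, w ζ)) hcf,
    laplacian_comp_hol (φ := Psi a k) (f := fun ζ => (z ζ, w ζ)) hf hcd, hd]
  set p : E := (z 0, w 0) with hpdef
  set v : E := (deriv z 0, deriv w 0) with hvdef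
  have hl : AnalyticAt ℂ (fun ζ : ℂ => p + ζ • v) 0 :=
    analyticAt_const.add (analyticAt_id.smul analyticAt_const)
  have hld : HasDerivAt (fun ζ : ℂ => p + ζ • v) v 0 := by
    simpa using ((hasDerivAt_id (0 : ℂ)).smul_const v).const_add p
  have hlR : ContDiffAt ℝ 2 (fun ζ : ℂ => p + ζ • v) 0 := by
    have h1 : ContDiffAt ℂ 2 (fun ζ : ℂ => p + ζ • v) 0 := hl.contDiffAt
    exact h1.restrict_scalars ℝ
  have hcd0 : ContDiffAt ℝ 2 (Psi a k) (p + (0 : ℂ) • v) := by simpa using hcd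
  have e1 := laplacian_comp_hol (φ := Psi a k) (f := fun ζ : ℂ => p + ζ • v) (ζ := 0) hl hcd0
  rw [hld.deriv, zero_smul, add_zero] at e1
  have hcl : ContDiffAt ℝ 2 (fun ζ : ℂ => Psi a k (p + ζ • v)) 0 :=
    ContDiffAt.comp (g := Psi a k) (0 : ℂ) hcd0 hlR
  rw [← e1, ← laplaceAtZero_eq (u := fun ζ : ℂ => Psi a k (p + ζ • v)) hcl]
  unfold laplaceAtZero
  have e2 : (fun s : ℝ => Psi a k (p + ((s : ℂ) * Complex.I) • v)) =
      fun s : ℝ => Psi a k (p + (s : ℂ) • (Complex.I • v)) := by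
    funext s
    rw [mul_smul]
  rw [e2, line k ha p v hp, line k ha p (Complex.I • v) hp]
  have hQ : QQ p + a * PP p ≠ 0 := by
    have h1 : 0 ≤ PP p := Complex.normSq_nonneg _
    have h2 : 0 ≤ QQ p := Complex.normSq_nonneg _
    intro h
    have h3 : PP p = 0 := by nlinarith
    have h4 : QQ p = 0 := by nlinarith
    have h5 : p.2 = p.1 := sub_eq_zero.1 (Complex.normSq_eq_zero.1 h3)
    have h6 : p.2 = conj p.1 := sub_eq_zero.1 (Complex.normSq_eq_zero.1 h4)
    rw [h5] at h6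
    have h7 := congrArg Complex.im h6
    simp at h7
    have : (z 0).im = p.1.im := rfl
    linarith
  have hy : p.1.im ≠ 0 := hp.ne'
  have key : ∀ p v : E, ∀ N : ℝ, N = QQ p + a * PP p →
      (2 * (Complex.normSq (v.2 - conj v.1) + a * Complex.normSq (v.2 - v.1)) * N -
        (2 * ((p.2 - conj p.1).re * (v.2 - conj v.1).re + (p.2 - conj p.1).im * (v.2 - conj v.1).im) +
        a * (2 * ((p.2 - p.1).re * (v.2 - v.1).re + (p.2 - p.1).im * (v.2 - v.1).im))) ^ 2) +
      (2 * (Complex.normSq ((Complex.I • v).2 - conj (Complex.I • v).1) +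
        a * Complex.normSq ((Complex.I • v).2 - (Complex.I • v).1)) * N -
        (2 * ((p.2 - conj p.1).re * ((Complex.I • v).2 - conj (Complex.I • v).1).re +
          (p.2 - conj p.1).im * ((Complex.I • v).2 - conj (Complex.I • v).1).im) +
        a * (2 * ((p.2 - p.1).re * ((Complex.I • v).2 - (Complex.I • v).1).re +
          (p.2 - p.1).im * ((Complex.I • v).2 - (Complex.I • v).1).im))) ^ 2) =
      4 * (4 * a * p.1.im ^ 2 * Complex.normSq v.2 + 4 * a * p.2.im ^ 2 * Complex.normSq v.1 +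
        2 * (1 + a) * ((conj p.2 - p.1) ^ 2 * v.2 * conj v.1).re) := by
    rintro ⟨⟨x, y⟩, ⟨c, d⟩⟩ ⟨⟨α, β⟩, ⟨γ, δ⟩⟩ N rfl
    simp only [QQ, PP, Complex.normSq_apply, Complex.sub_re, Complex.sub_im, Complex.conj_re,
      Complex.conj_im, Prod.smul_fst, Prod.smul_snd, smul_eq_mul, Complex.mul_re, Complex.mul_im,
      Complex.I_re, Complex.I_im, pow_two, map_mul]
    ring
  have hk := key p v _ rfl
  have him1 : (Complex.I • v).1.im = v.1.re := by simp
  have hns : Complex.normSq v.1 = v.1.re ^ 2 + v.1.im ^ 2 := by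
    rw [Complex.normSq_apply]; ring
  rw [him1]
  unfold levF
  generalize QQ p + a * PP p = N at hk hQ ⊢
  generalize hX : 2 * (Complex.normSq (v.2 - conj v.1) + a * Complex.normSq (v.2 - v.1)) * N -
        (2 * ((p.2 - conj p.1).re * (v.2 - conj v.1).re + (p.2 - conj p.1).im * (v.2 - conj v.1).im) +
        a * (2 * ((p.2 - p.1).re * (v.2 - v.1).re + (p.2 - p.1).im * (v.2 - v.1).im))) ^ 2 = X
    at hk ⊢
  generalize hY : 2 * (Complex.normSq ((Complex.I • v).2 - conj (Complex.I • v).1) +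
        a * Complex.normSq ((Complex.I • v).2 - (Complex.I • v).1)) * N -
        (2 * ((p.2 - conj p.1).re * ((Complex.I • v).2 - conj (Complex.I • v).1).re +
          (p.2 - conj p.1).im * ((Complex.I • v).2 - conj (Complex.I • v).1).im) +
        a * (2 * ((p.2 - p.1).re * ((Complex.I • v).2 - (Complex.I • v).1).re +
          (p.2 - p.1).im * ((Complex.I • v).2 - (Complex.I • v).1).im))) ^ 2 = Y at hk ⊢
  generalize ((conj p.2 - p.1) ^ 2 * v.2 * conj v.1).re = R at hk ⊢
  have h1 : X / N ^ 2 + k * v.1.im ^ 2 / p.1.im ^ 2 + (Y / N ^ 2 + k * v.1.re ^ 2 / p.1.im ^ 2) =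
      (X + Y) / N ^ 2 + k * (v.1.re ^ 2 + v.1.im ^ 2) / p.1.im ^ 2 := by
    ring
  rw [h1, hk, ← hns]
  field_simp
  ring

end Pool.Agent.Run7.h390.KS
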